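import Pool.Agent.Helper74.EV4.Core4
import Pool.Agent.Helper3.E4.Var
import Pool.Agent.Helper3.E4.Bulk

/-!
# EV4b: the core
-/

set_option autoImplicit false

namespace Pool.Agent.Helper74.EV4

open Polynomial EVC

/-- **The core.** -/
theorem core4 (b c T κ : ℝ) (h : Adm b c T κ) : ∃ L₀ : ℕ, ∀ L : ℕ, L₀ ≤ L → ∀ P : ℝ[X], Hyp b c T κ L P →
    ∀ k : ℕ, 1 ≤ k → P.coeff (k - 1) * P.coeff (k + 1) ≤ P.coeff k ^ 2 :=
  core4_of (fun _ _ _ _ h _ _ hP _ hr => Pool.Agent.Helper3.E4.var_ge h hP hr)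
    (fun _ _ _ _ h => Pool.Agent.Helper3.E4.bulk h) b c T κ h

end Pool.Agent.Helper74.EV4
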