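import Pool.Agent.Helper3.EVC.Defs

/-!
# EV4b, analytic half: the hypothesis

`P : ℝ[X]` is the polynomial in `t = z ^ 2`, `L` the number of crossings.
-/

set_option autoImplicit false

namespace Pool.Agent.Helper74.EV4

open Polynomial

/-- weight of the window at radius `r` -/
noncomputable def wt (r : ℝ) : ℝ := r / (1 + r) ^ 2

/-- The input of the core. Roots: at a relative distance `b` from the positive axis, of modulus at most `T`, and
real negative if their modulus is less than `c`; an upper bound at `1`; decay away from the positive axis for all radii. -/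
structure Hyp (b c T κ : ℝ) (L : ℕ) (P : ℝ[X]) : Prop extends EVC.Nice L P where
  dist : ∀ ρ ∈ EVC.Z P, ∀ r : ℝ, 0 < r → b * (r + ‖ρ‖) ≤ ‖(r : ℂ) - ρ‖
  far : ∀ ρ ∈ EVC.Z P, ‖ρ‖ ≤ T
  neg : ∀ ρ ∈ EVC.Z P, ‖ρ‖ < c → ρ.im = 0 ∧ ρ.re < 0
  up : P.eval 1 ≤ 4 ^ L
  dec : ∀ r θ : ℝ, 0 < r → |θ| ≤ Real.pi →
    ‖aeval (EVC.pt r θ) P‖ ≤ Real.exp (-(κ * L * wt r * (1 - Real.cos θ))) * P.eval r

/-- the constants are admissible -/
structure Adm (b c T κ : ℝ) : Prop where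
  hb : 0 < b
  hb1 : b ≤ 1
  hc : 0 < c
  hc1 : c ≤ 1
  hT : 1 ≤ T
  hκ : 0 < κ
  hκ1 : κ ≤ 1

end Pool.Agent.Helper74.EV4
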