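import Pool.Agent.Helper74.EV4.Low3
import Pool.Agent.Helper74.EV4.TopEnd

/-!
# EV4b: the core, from the variance bound and the bulk
-/

set_option autoImplicit false

namespace Pool.Agent.Helper74.EV4

open Polynomial EVC

/-- **The core.** -/
theorem core4_of
    (var : ∀ (b c T κ : ℝ), Adm b c T κ → ∀ (L : ℕ) (P : ℝ[X]), Hyp b c T κ L P → ∀ r : ℝ, 0 < r → κ * L * wt r ≤ V P r)
    (bulk : ∀ (b c T κ : ℝ), Adm b c T κ → ∃ V0 : ℝ, ∀ (L : ℕ) (P : ℝ[X]), Hyp b c T κ L P → ∀ r : ℝ, 0 < r → V0 ≤ V P r →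
      ∀ k : ℕ, 1 ≤ k → mean P r = k → P.coeff (k - 1) * P.coeff (k + 1) < P.coeff k ^ 2)
    (b c T κ : ℝ) (h : Adm b c T κ) : ∃ L₀ : ℕ, ∀ L : ℕ, L₀ ≤ L → ∀ P : ℝ[X], Hyp b c T κ L P →
      ∀ k : ℕ, 1 ≤ k → P.coeff (k - 1) * P.coeff (k + 1) ≤ P.coeff k ^ 2 := by
  have hκ := h.hκ
  obtain ⟨V0, hbulk⟩ := bulk b c T κ h
  have hδ := del_pos h
  have hτ := dtop_pos h
  obtain ⟨ra, hra, hra1, hsmall⟩ := mean_small h (half_pos hδ)
  obtain ⟨Rb, hRb1, hlarge⟩ := mean_large h hτ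
  -- the least weight on the interval
  obtain ⟨w, hw⟩ : ∃ w, w = ra / (1 + Rb) ^ 2 := ⟨_, rfl⟩
  have hw0 : 0 < w := by rw [hw]; positivity
  obtain ⟨L1, hL1⟩ := exists_nat_ge (V0 / (κ * w))
  obtain ⟨L2, hL2⟩ := exists_nat_ge (2 / del c κ)
  refine ⟨max (max L1 L2) 1, fun L hL P hP k hk => ?_⟩
  have hLa : L1 ≤ L := (le_max_left _ _).trans ((le_max_left _ _).trans hL)
  have hLb : L2 ≤ L := (le_max_right _ _).trans ((le_max_left _ _).trans hL)
  have hLc : 1 ≤ L := (le_max_right _ _).trans hL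
  have hLaR : (L1 : ℝ) ≤ L := by exact_mod_cast hLa
  have hLbR : (L2 : ℝ) ≤ L := by exact_mod_cast hLb
  have hV := var b c T κ h L P hP
  by_cases hk1 : (k : ℝ) + 1 ≤ del c κ * L
  · exact low4 h hP hV k hk hk1
  by_cases hk2 : (P.natDegree : ℝ) ≤ k + dtop T κ * L
  · exact top4 h hLc hP hV k hk2
  push Not at hk1 hk2
  have h1 := hsmall L P hP
  have h2 := hlarge L P hP
  have h3 : 2 ≤ del c κ * L := by
    have h4 : 2 / del c κ ≤ L := hL2.trans hLbR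
    rw [div_le_iff₀ hδ] at h4
    linarith
  have h4 : mean P ra ≤ k := by linarith
  have h5 : (k : ℝ) ≤ mean P Rb := by linarith
  have hab : ra ≤ Rb := hra1.trans hRb1
  obtain ⟨r, hr, hrk⟩ := intermediate_value_Icc hab (mean_cont hP.toNice ra Rb hra) ⟨h4, h5⟩
  have hr0 : 0 < r := lt_of_lt_of_le hra hr.1
  refine (hbulk L P hP r hr0 ?_ k hk hrk).le
  refine le_trans ?_ (hV r hr0)
  have h6 : w ≤ wt r := by
    rw [hw]
    unfold wt
    have h7 : (1 + r) ^ 2 ≤ (1 + Rb) ^ 2 := pow_le_pow_left₀ (by linarith) (by linarith [hr.2]) 2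
    exact div_le_div₀ hr0.le hr.1 (by positivity) h7
  have h7 : V0 ≤ κ * w * L := by
    have h8 : V0 / (κ * w) ≤ L := hL1.trans hLaR
    rw [div_le_iff₀ (by positivity)] at h8
    linarith
  refine h7.trans ?_
  have h9 : κ * L * w ≤ κ * L * wt r := mul_le_mul_of_nonneg_left h6 (by positivity)
  linarith

end Pool.Agent.Helper74.EV4
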