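import Pool.Agent.Helper49.EV.Low

/-!
# EV4b, low end: the gap for products of real linear factors
-/

set_option autoImplicit false

namespace Pool.Agent.Helper74.EV4

open Polynomial

/-- coefficients with integer index -/
noncomputable def cz (p : ℝ[X]) (n : ℤ) : ℝ := if n < 0 then 0 else p.coeff n.toNat

/-- two by two minors of a sequence -/
def PF2 (a : ℤ → ℝ) : Prop := (∀ n, 0 ≤ a n) ∧ ∀ m n, m ≤ n → a (m - 1) * a (n + 1) ≤ a m * a n

/-- the gap -/
def gp (a : ℤ → ℝ) (n : ℤ) : ℝ := a n ^ 2 - a (n - 1) * a (n + 1)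

theorem cz_nat (p : ℝ[X]) (n : ℕ) : cz p n = p.coeff n := by
  unfold cz
  rw [if_neg (by omega), Int.toNat_natCast]

theorem cz_neg (p : ℝ[X]) {n : ℤ} (h : n < 0) : cz p n = 0 := if_pos h

theorem cz_lin (p : ℝ[X]) (s t : ℝ) (n : ℤ) : cz ((C s + C t * X) * p) n = s * cz p n + t * cz p (n - 1) := by
  rcases lt_or_ge n 0 with h | h
  · rw [cz_neg _ h, cz_neg _ h, cz_neg _ (by omega)]
    ring
  · obtain ⟨m, rfl⟩ := Int.eq_ofNat_of_zero_le h
    have e : ((C s + C t * X) * p : ℝ[X]) = C s * p + C t * (X * p) := by ring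
    rcases m with _ | m
    · have h2 : cz p (((0 : ℕ) : ℤ) - 1) = 0 := cz_neg _ (by norm_num)
      change cz _ ((0 : ℕ) : ℤ) = s * cz p ((0 : ℕ) : ℤ) + t * cz p (((0 : ℕ) : ℤ) - 1)
      rw [h2, cz_nat, cz_nat, e, coeff_add, coeff_C_mul, coeff_C_mul, mul_coeff_zero, coeff_X_zero]
      ring
    · have h3 : (((m + 1 : ℕ) : ℤ)) - 1 = ((m : ℕ) : ℤ) := by push_cast; ring
      change cz _ ((m + 1 : ℕ) : ℤ) = s * cz p ((m + 1 : ℕ) : ℤ) + t * cz p (((m + 1 : ℕ) : ℤ) - 1)
      rw [h3, cz_nat, cz_nat, cz_nat, e, coeff_add, coeff_C_mul, coeff_C_mul, coeff_X_mul]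

theorem PF2.lin {a : ℤ → ℝ} (h : PF2 a) {s t : ℝ} (hs : 0 ≤ s) (ht : 0 ≤ t) :
    PF2 (fun n => s * a n + t * a (n - 1)) := by
  refine ⟨fun n => add_nonneg (mul_nonneg hs (h.1 n)) (mul_nonneg ht (h.1 _)), ?_⟩
  intro m n hmn
  have h1 := h.2 m n hmn
  have h2 := h.2 (m - 1) (n - 1) (by omega)
  have h3 : a (m - 2) * a (n + 1) ≤ a m * a (n - 1) := by
    rcases eq_or_lt_of_le hmn with rfl | hlt
    · have h4 := h.2 (m - 1) m (by omega)
      rw [show m - 1 - 1 = m - 2 by ring] at h4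
      linarith [mul_comm (a (m - 1)) (a m)]
    · have h4 := h.2 (m - 1) n (by omega)
      have h5 := h.2 m (n - 1) (by omega)
      rw [show m - 1 - 1 = m - 2 by ring] at h4
      rw [show n - 1 + 1 = n by ring] at h5
      linarith
  rw [show n - 1 + 1 = n by ring, show m - 1 - 1 = m - 2 by ring] at h2
  have e1 : m - 1 - 1 = m - 2 := by ring
  have e2 : n + 1 - 1 = n := by ring
  simp only [e1, e2]
  have k1 := mul_le_mul_of_nonneg_left h1 (mul_nonneg hs hs)
  have k2 := mul_le_mul_of_nonneg_left h2 (mul_nonneg ht ht)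
  have k3 := mul_le_mul_of_nonneg_left h3 (mul_nonneg hs ht)
  nlinarith [k1, k2, k3]

theorem gp_lin {a : ℤ → ℝ} (h : PF2 a) {s t : ℝ} (hs : 0 ≤ s) (ht : 0 ≤ t) (n : ℤ) :
    s ^ 2 * gp a n ≤ gp (fun n => s * a n + t * a (n - 1)) n ∧
    t ^ 2 * gp a (n - 1) ≤ gp (fun n => s * a n + t * a (n - 1)) n := by
  have h1 := h.2 n n le_rfl
  have h2 := h.2 (n - 1) (n - 1) le_rfl
  have h3 := h.2 (n - 1) n (by omega)
  rw [show n - 1 - 1 = n - 2 by ring] at h3
  rw [show n - 1 + 1 = n by ring, show n - 1 - 1 = n - 2 by ring] at h2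
  unfold gp
  have e1 : n - 1 - 1 = n - 2 := by ring
  have e2 : n + 1 - 1 = n := by ring
  have e3 : n - 1 + 1 = n := by ring
  simp only [e1, e2, e3]
  have k3 := mul_le_mul_of_nonneg_left h3 (mul_nonneg hs ht)
  have k1 := mul_le_mul_of_nonneg_left h1 (mul_nonneg hs hs)
  have k2 := mul_le_mul_of_nonneg_left h2 (mul_nonneg ht ht)
  constructor <;> nlinarith [k1, k2, k3]

theorem PF2.one : PF2 (cz 1) := by
  have key : ∀ n : ℤ, cz 1 n = if n = 0 then 1 else 0 := by
    intro n
    rcases lt_or_ge n 0 with h | h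
    · rw [cz_neg _ h, if_neg (by omega)]
    · obtain ⟨m, rfl⟩ := Int.eq_ofNat_of_zero_le h
      rw [cz_nat, coeff_one]
      simp
  constructor
  · intro n
    rw [key]
    split_ifs <;> norm_num
  · intro m n hmn
    rw [key, key, key, key]
    split_ifs <;> norm_num <;> omega

/-- product of `X + u` -/
noncomputable def up (U : Multiset ℝ) : ℝ[X] := (U.map fun u => (C u + C 1 * X : ℝ[X])).prod

/-- product of `1 + v X` -/
noncomputable def lp (V : Multiset ℝ) : ℝ[X] := (V.map fun v => (C 1 + C v * X : ℝ[X])).prod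

theorem up_cons (u : ℝ) (U : Multiset ℝ) : up (u ::ₘ U) = (C u + C 1 * X) * up U := by
  unfold up
  rw [Multiset.map_cons, Multiset.prod_cons]

theorem lp_cons (v : ℝ) (V : Multiset ℝ) : lp (v ::ₘ V) = (C 1 + C v * X) * lp V := by
  unfold lp
  rw [Multiset.map_cons, Multiset.prod_cons]

theorem cz_lin' (p : ℝ[X]) (s t : ℝ) : cz ((C s + C t * X) * p) = fun n => s * cz p n + t * cz p (n - 1) :=
  funext fun n => cz_lin p s t n

theorem PF2.lp {V : Multiset ℝ} (hV : ∀ v ∈ V, 0 ≤ v) : PF2 (cz (lp V)) := by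
  induction V using Multiset.induction_on with
  | empty => exact PF2.one
  | cons v V ih =>
    rw [lp_cons, cz_lin']
    exact (ih fun x hx => hV x (Multiset.mem_cons_of_mem hx)).lin zero_le_one
      (hV v (Multiset.mem_cons_self v V))

theorem PF2.mul_up {p : ℝ[X]} (hp : PF2 (cz p)) {U : Multiset ℝ} (hU : ∀ u ∈ U, 0 ≤ u) : PF2 (cz (up U * p)) := by
  induction U using Multiset.induction_on with
  | empty => simpa [up] using hp
  | cons u U ih =>
    rw [up_cons, mul_assoc, cz_lin']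
    exact (ih fun x hx => hU x (Multiset.mem_cons_of_mem hx)).lin (hU u (Multiset.mem_cons_self u U)) zero_le_one

theorem PF2.mul_lp {p : ℝ[X]} (hp : PF2 (cz p)) {V : Multiset ℝ} (hV : ∀ u ∈ V, 0 ≤ u) : PF2 (cz (Pool.Agent.Helper74.EV4.lp V * p)) := by
  induction V using Multiset.induction_on with
  | empty => simpa [Pool.Agent.Helper74.EV4.lp] using hp
  | cons u U ih =>
    rw [lp_cons, mul_assoc, cz_lin']
    exact (ih fun x hx => hV x (Multiset.mem_cons_of_mem hx)).lin zero_le_one (hV u (Multiset.mem_cons_self u U))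

theorem gp_mul_up {p : ℝ[X]} (hp : PF2 (cz p)) {U : Multiset ℝ} (hU : ∀ u ∈ U, 0 ≤ u) (n : ℤ) :
    gp (cz p) (n - Multiset.card U) ≤ gp (cz (up U * p)) n := by
  induction U using Multiset.induction_on generalizing n with
  | empty => simp [up]
  | cons u U ih =>
    have h1 := ih (fun x hx => hU x (Multiset.mem_cons_of_mem hx)) (n - 1)
    have h2 := (gp_lin (hp.mul_up (U := U) fun x hx => hU x (Multiset.mem_cons_of_mem hx))
      (hU u (Multiset.mem_cons_self u U)) zero_le_one n).2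
    rw [up_cons, mul_assoc, cz_lin']
    rw [one_pow, one_mul] at h2
    refine le_trans ?_ h2
    refine le_trans (le_of_eq ?_) h1
    congr 1
    rw [Multiset.card_cons]
    push_cast
    ring

theorem gp_mul_lp {p : ℝ[X]} (hp : PF2 (cz p)) {V : Multiset ℝ} (hV : ∀ u ∈ V, 0 ≤ u) (n : ℤ) :
    gp (cz p) n ≤ gp (cz (lp V * p)) n := by
  induction V using Multiset.induction_on with
  | empty => simp [lp]
  | cons u U ih =>
    have h1 := ih (fun x hx => hV x (Multiset.mem_cons_of_mem hx))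
    have h2 := (gp_lin (hp.mul_lp (V := U) fun x hx => hV x (Multiset.mem_cons_of_mem hx))
      zero_le_one (hV u (Multiset.mem_cons_self u U)) n).1
    rw [lp_cons, mul_assoc, cz_lin']
    rw [one_pow, one_mul] at h2
    exact h1.trans h2

/-- `up` is the reverse of `lp` -/
theorem cz_up (U : Multiset ℝ) (j : ℤ) : cz (up U) (Multiset.card U - j) = cz (lp U) j := by
  induction U using Multiset.induction_on generalizing j with
  | empty =>
    have e1 : up 0 = 1 := by simp [up]
    have e2 : lp 0 = 1 := by simp [lp]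
    rw [e1, e2]
    have key : ∀ n : ℤ, cz 1 n = if n = 0 then 1 else 0 := by
      intro n
      rcases lt_or_ge n 0 with h | h
      · rw [cz_neg _ h, if_neg (by omega)]
      · obtain ⟨m, rfl⟩ := Int.eq_ofNat_of_zero_le h
        rw [cz_nat, coeff_one]
        simp
    rw [key, key]
    simp
  | cons u U ih =>
    rw [up_cons, lp_cons, cz_lin, cz_lin, Multiset.card_cons]
    have h1 := ih j
    have h2 := ih (j - 1)
    rw [show ((Multiset.card U + 1 : ℕ) : ℤ) - j = Multiset.card U - (j - 1) by push_cast; ring, h2,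
      show (Multiset.card U : ℤ) - (j - 1) - 1 = Multiset.card U - j by ring, h1]
    ring

theorem gp_up (U : Multiset ℝ) (j : ℤ) : gp (cz (up U)) (Multiset.card U - j) = gp (cz (lp U)) j := by
  unfold gp
  rw [cz_up, show (Multiset.card U : ℤ) - j - 1 = Multiset.card U - (j + 1) by ring, cz_up,
    show (Multiset.card U : ℤ) - j + 1 = Multiset.card U - (j - 1) by ring, cz_up]
  ring

theorem lp_coeff (V : Multiset ℝ) (j : ℕ) : (lp V).coeff j = V.esymm j := by
  rw [← Pool.Agent.Helper49.EV.coeff_prod]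
  rfl

end Pool.Agent.Helper74.EV4
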