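import Pool.Agent.Helper74.EV4.Hyp
import Pool.Agent.Helper3.EVC.E13a
import Pool.Agent.Helper3.EVC.E20a

/-!
# EV4b, low end: the first power sum of the roots away from zero
-/

set_option autoImplicit false

namespace Pool.Agent.Helper74.EV4

open Polynomial EVC

/-- the second radius -/
noncomputable def r1 (c κ : ℝ) : ℝ := κ * c ^ 2 / 80

/-- the threshold of the roots -/
noncomputable def c0 (c κ : ℝ) : ℝ := κ * r1 c κ ^ 2 / 8

open Classical in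
/-- the roots away from zero -/
noncomputable def fr (c κ : ℝ) (P : ℝ[X]) : Multiset ℂ := (Z P).filter fun ρ => c0 c κ ≤ ‖ρ‖

open Classical in
/-- the roots near zero -/
noncomputable def nr (c κ : ℝ) (P : ℝ[X]) : Multiset ℂ := (Z P).filter fun ρ => ¬ c0 c κ ≤ ‖ρ‖

theorem nr_add_fr (c κ : ℝ) (P : ℝ[X]) : nr c κ P + fr c κ P = Z P := by
  unfold nr fr
  rw [add_comm]
  exact Multiset.filter_add_not _ _

theorem mem_fr {c κ : ℝ} {P : ℝ[X]} {ρ : ℂ} : ρ ∈ fr c κ P ↔ ρ ∈ Z P ∧ c0 c κ ≤ ‖ρ‖ := by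
  unfold fr
  rw [Multiset.mem_filter]

theorem mem_nr {c κ : ℝ} {P : ℝ[X]} {ρ : ℂ} : ρ ∈ nr c κ P ↔ ρ ∈ Z P ∧ ‖ρ‖ < c0 c κ := by
  unfold nr
  rw [Multiset.mem_filter, not_le]

theorem sum_ite_filter {α : Type*} (s : Multiset α) (P : α → Prop) [DecidablePred P] (g : α → ℝ) :
    (s.map fun x => if P x then g x else 0).sum = ((s.filter P).map g).sum := by
  induction s using Multiset.induction_on with
  | empty => simp
  | cons a s ih =>
    rw [Multiset.map_cons, Multiset.sum_cons, ih]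
    by_cases h : P a
    · rw [Multiset.filter_cons_of_pos _ h, Multiset.map_cons, Multiset.sum_cons, if_pos h]
    · rw [Multiset.filter_cons_of_neg _ h, if_neg h, zero_add]

/-- the kernel at a negative real root -/
theorem real_root {r : ℝ} (hr : 0 < r) {ρ : ℂ} (him : ρ.im = 0) (hre : ρ.re < 0) :
    p r ρ * (1 - p r ρ) = ((r * ‖ρ‖ / (r + ‖ρ‖) ^ 2 : ℝ) : ℂ) ∧ ρ = -(‖ρ‖ : ℂ) ∧ 0 < ‖ρ‖ := by
  have h1 : ρ = (ρ.re : ℂ) := by
    apply Complex.ext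
    · simp
    · simp [him]
  have h2 : ‖ρ‖ = -ρ.re := by
    rw [h1, Complex.norm_real, Real.norm_of_nonpos hre.le, Complex.ofReal_re]
  have h3 : ρ = -(‖ρ‖ : ℂ) := by
    rw [h2]
    push_cast
    rw [neg_neg]
    exact h1
  have h4 : 0 < ‖ρ‖ := by rw [h2]; linarith
  refine ⟨?_, h3, h4⟩
  obtain ⟨x, hx⟩ : ∃ x, x = ‖ρ‖ := ⟨_, rfl⟩
  rw [← hx] at h3 h4 ⊢
  have h5 : ((r : ℂ) - ρ) = ((r + x : ℝ) : ℂ) := by
    rw [h3]
    push_cast
    ring
  have h6 : ((r + x : ℝ) : ℂ) ≠ 0 := by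
    rw [Complex.ofReal_ne_zero]
    positivity
  unfold p
  rw [h5]
  have h7 : (1 : ℂ) - (r : ℂ) / ((r + x : ℝ) : ℂ) = (x : ℂ) / ((r + x : ℝ) : ℂ) := by
    rw [eq_div_iff h6, sub_mul, one_mul, div_mul_cancel₀ _ h6]
    push_cast
    ring
  rw [h7]
  push_cast
  rw [div_mul_div_comm]
  congr 1
  ring

/-- the kernel at a far root -/
theorem far_root {r : ℝ} (hr : 0 < r) {ρ : ℂ} (h2 : 2 * r ≤ ‖ρ‖) :
    ‖p r ρ * (1 - p r ρ) - (r : ℂ) * (-ρ⁻¹)‖ ≤ 10 * r ^ 2 / ‖ρ‖ ^ 2 := by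
  have hn : 0 < ‖ρ‖ := by linarith
  have hρ : ρ ≠ 0 := norm_pos_iff.1 hn
  have h3 : ‖ρ‖ / 2 ≤ ‖(r : ℂ) - ρ‖ := by
    have := norm_sub_norm_le ρ (r : ℂ)
    rw [norm_sub_rev, Complex.norm_real, Real.norm_of_nonneg hr.le] at this
    linarith
  have h4 : (r : ℂ) - ρ ≠ 0 := by
    apply norm_pos_iff.1
    linarith
  have e1 : p r ρ * (1 - p r ρ) - (r : ℂ) * (-ρ⁻¹) =
      (r : ℂ) ^ 2 * ((r : ℂ) - 2 * ρ) / (ρ * ((r : ℂ) - ρ) ^ 2) := by
    unfold p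
    field_simp
    ring
  rw [e1, norm_div, norm_mul, norm_mul, norm_pow, norm_pow, Complex.norm_real, Real.norm_of_nonneg hr.le]
  have h5 : ‖(r : ℂ) - 2 * ρ‖ ≤ 5 / 2 * ‖ρ‖ := by
    refine (norm_sub_le _ _).trans ?_
    rw [norm_mul, Complex.norm_real, Real.norm_of_nonneg hr.le, Complex.norm_ofNat]
    linarith
  rw [div_le_div_iff₀ (by positivity) (by positivity)]
  have h6 : ‖ρ‖ ^ 2 / 4 ≤ ‖(r : ℂ) - ρ‖ ^ 2 := by
    have := pow_le_pow_left₀ (by positivity) h3 2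
    rw [div_pow] at this
    norm_num at this
    exact this
  calc r ^ 2 * ‖(r : ℂ) - 2 * ρ‖ * ‖ρ‖ ^ 2 ≤ r ^ 2 * (5 / 2 * ‖ρ‖) * ‖ρ‖ ^ 2 := by gcongr
    _ = 10 * r ^ 2 * (‖ρ‖ * (‖ρ‖ ^ 2 / 4)) := by ring
    _ ≤ _ := by gcongr

theorem r1_pos {b c T κ : ℝ} (h : Adm b c T κ) : 0 < r1 c κ := by
  have := h.hc
  have := h.hκ
  unfold r1
  positivity

theorem r1_le {b c T κ : ℝ} (h : Adm b c T κ) : r1 c κ ≤ c / 2 := by
  have h1 := h.hc
  have h2 := h.hκ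
  have h3 := h.hc1
  have h4 := h.hκ1
  unfold r1
  have h5 : κ * c ^ 2 ≤ 1 * (c * 1) := by
    rw [sq]
    exact mul_le_mul h4 (mul_le_mul_of_nonneg_left h3 h1.le) (by positivity) (by norm_num)
  linarith

theorem c0_pos {b c T κ : ℝ} (h : Adm b c T κ) : 0 < c0 c κ := by
  have := r1_pos h
  have := h.hκ
  unfold c0
  positivity

theorem c0_le {b c T κ : ℝ} (h : Adm b c T κ) : c0 c κ ≤ c := by
  have h1 := r1_pos h
  have h2 := h.hκ
  have h3 := h.hκ1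
  have h4 := r1_le h
  have h5 := h.hc1
  have h6 := h.hc
  unfold c0
  have h7 : r1 c κ ^ 2 ≤ c * 1 := by
    rw [sq]
    exact mul_le_mul (by linarith) (by linarith) h1.le h6.le
  have h8 : κ * r1 c κ ^ 2 ≤ 1 * (c * 1) := mul_le_mul h3 h7 (by positivity) (by norm_num)
  linarith

open Classical in
/-- **The first power sum is linear.** -/
theorem lam_ge {b c T κ : ℝ} (h : Adm b c T κ) {L : ℕ} {P : ℝ[X]} (hP : Hyp b c T κ L P)
    (hV : ∀ r : ℝ, 0 < r → κ * L * wt r ≤ V P r) :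
    κ / 8 * L ≤ ((fr c κ P).map fun ρ => (-ρ⁻¹).re).sum := by
  have hr := r1_pos h
  have hr2 := r1_le h
  have hc := h.hc
  have hκ := h.hκ
  have hc0 := c0_pos h
  obtain ⟨r, hrdef⟩ : ∃ r, r = r1 c κ := ⟨_, rfl⟩
  rw [← hrdef] at hr hr2
  have hV1 := hV r hr
  have e1 : V P r = ((Z P).map fun ρ => (p r ρ * (1 - p r ρ)).re).sum := by
    unfold V
    exact re_sum_map _ _
  obtain ⟨A, hA⟩ : ∃ A, A = c0 c κ / r + 10 * r ^ 2 / c ^ 2 := ⟨_, rfl⟩
  have hA0 : 0 ≤ A := by rw [hA]; positivity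
  have hbd : ∀ ρ ∈ Z P, (p r ρ * (1 - p r ρ)).re ≤ A + r * (if c0 c κ ≤ ‖ρ‖ then (-ρ⁻¹).re else 0) := by
    intro ρ hρ
    by_cases h1 : ‖ρ‖ < c
    · obtain ⟨him, hre⟩ := hP.neg ρ hρ h1
      obtain ⟨h2, h3, h4⟩ := real_root hr him hre
      rw [h2, Complex.ofReal_re]
      by_cases h5 : c0 c κ ≤ ‖ρ‖
      · rw [if_pos h5]
        have h6 : (-ρ⁻¹).re = ‖ρ‖⁻¹ := by
          have h7 : -ρ⁻¹ = ((‖ρ‖⁻¹ : ℝ) : ℂ) := by
            conv_lhs => rw [h3]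
            push_cast
            rw [inv_neg, neg_neg]
          rw [h7, Complex.ofReal_re]
        rw [h6]
        have h8 : r * ‖ρ‖ / (r + ‖ρ‖) ^ 2 ≤ r * ‖ρ‖⁻¹ := by
          rw [div_le_iff₀ (by positivity)]
          have h9 : ‖ρ‖ ^ 2 ≤ (r + ‖ρ‖) ^ 2 := pow_le_pow_left₀ h4.le (by linarith) 2
          calc r * ‖ρ‖ = r * ‖ρ‖⁻¹ * ‖ρ‖ ^ 2 := by field_simp
            _ ≤ _ := by gcongr
        linarith
      · rw [if_neg h5, mul_zero, add_zero]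
        push Not at h5
        have h8 : r * ‖ρ‖ / (r + ‖ρ‖) ^ 2 ≤ c0 c κ / r := by
          rw [div_le_div_iff₀ (by positivity) hr]
          have h9 : r ^ 2 ≤ (r + ‖ρ‖) ^ 2 := pow_le_pow_left₀ hr.le (by linarith) 2
          calc r * ‖ρ‖ * r = ‖ρ‖ * r ^ 2 := by ring
            _ ≤ c0 c κ * (r + ‖ρ‖) ^ 2 := by gcongr
        have : 0 ≤ 10 * r ^ 2 / c ^ 2 := by positivity
        rw [hA]
        linarith
    · push Not at h1
      rw [if_pos ((c0_le h).trans h1)]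
      have h2 := far_root (r := r) hr (ρ := ρ) (by linarith)
      have h3 := (le_abs_self _).trans ((Complex.abs_re_le_norm _).trans h2)
      rw [Complex.sub_re, Complex.re_ofReal_mul] at h3
      have h4 : 10 * r ^ 2 / ‖ρ‖ ^ 2 ≤ 10 * r ^ 2 / c ^ 2 := by gcongr
      have h5 : 0 ≤ c0 c κ / r := by positivity
      rw [hA]
      linarith
  have h1 := Multiset.sum_map_le_sum_map _ _ hbd
  rw [Multiset.sum_map_add, Multiset.map_const', Multiset.sum_replicate, nsmul_eq_mul,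
    Multiset.sum_map_mul_left, sum_ite_filter, ← e1] at h1
  have hcard := card_Z_le hP.toNice
  have hcardA : ((Z P).card : ℝ) * A ≤ L / 2 * A := mul_le_mul_of_nonneg_right (by linarith) hA0
  have hw : r / 4 ≤ wt r := by
    unfold wt
    rw [div_le_div_iff₀ (by norm_num) (by positivity)]
    have : (1 + r) ^ 2 ≤ 4 := by
      have h3 : r ≤ 1 := by linarith [h.hc1]
      nlinarith
    nlinarith
  have hLw : κ * L * (r / 4) ≤ κ * L * wt r := mul_le_mul_of_nonneg_left hw (by positivity)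
  have hAeq : (L : ℝ) / 2 * A = κ * L * r / 8 := by
    rw [hA]
    have e2 : c0 c κ = κ * r ^ 2 / 8 := by rw [hrdef]; rfl
    have e3 : r = κ * c ^ 2 / 80 := by rw [hrdef]; rfl
    have e4 : 10 * r ^ 2 / c ^ 2 = κ * r / 8 := by
      rw [div_eq_iff (by positivity)]
      nlinarith [e3]
    have e5 : c0 c κ / r = κ * r / 8 := by
      rw [e2, div_eq_iff hr.ne']
      ring
    rw [e4, e5]
    ring
  have hfin : κ * L * r / 8 ≤ r * ((fr c κ P).map fun ρ => (-ρ⁻¹).re).sum := by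
    unfold fr
    linarith
  exact le_of_mul_le_mul_left (by linarith : r * (κ / 8 * L) ≤ _) hr

end Pool.Agent.Helper74.EV4
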