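import Pool.Agent.Helper74.EV4.Low1
import Pool.Agent.Helper74.EV4.Low2
import Pool.Agent.Helper74.EV2.Newton

/-!
# EV4b, low end: log-concavity of the first `δ L` coefficients
-/

set_option autoImplicit false

namespace Pool.Agent.Helper74.EV4

open Polynomial EVC Pool.Agent.Helper49.ZB Pool.Agent.Helper74.EV2

/-- negative inverses of the far roots -/
noncomputable def fa (c κ : ℝ) (P : ℝ[X]) : Multiset ℂ := (fr c κ P).map fun ρ => -ρ⁻¹

open Classical in
theorem fr_conj (c κ : ℝ) (P : ℝ[X]) : (fr c κ P).map (starRingEnd ℂ) = fr c κ P := by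
  unfold fr
  conv_rhs => rw [← conj_Z P]
  rw [Multiset.filter_map]
  congr 1
  refine Multiset.filter_congr fun ρ _ => ?_
  simp

theorem fa_conj (c κ : ℝ) (P : ℝ[X]) : (fa c κ P).map (starRingEnd ℂ) = fa c κ P := by
  unfold fa
  conv_rhs => rw [← fr_conj c κ P]
  rw [Multiset.map_map, Multiset.map_map]
  refine Multiset.map_congr rfl fun ρ _ => ?_
  simp

theorem esymm_re {a : Multiset ℂ} (h : a.map (starRingEnd ℂ) = a) (j : ℕ) :
    (((a.esymm j).re : ℝ) : ℂ) = a.esymm j := by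
  have h1 : (starRingEnd ℂ) (a.esymm j) = a.esymm j := by
    conv_rhs => rw [← h]
    unfold Multiset.esymm
    rw [map_multiset_sum, Multiset.powersetCard_map, Multiset.map_map, Multiset.map_map]
    congr 1
    refine Multiset.map_congr rfl fun t _ => ?_
    simp only [Function.comp_apply]
    exact map_multiset_prod (starRingEnd ℂ) t
  exact (Complex.conj_eq_iff_re).1 h1

/-- elementary symmetric functions of the far part -/
noncomputable def ev (c κ : ℝ) (P : ℝ[X]) (j : ℕ) : ℝ := ((fa c κ P).esymm j).re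

/-- power sums of the far part -/
noncomputable def pv (c κ : ℝ) (P : ℝ[X]) (j : ℕ) : ℝ := (((fa c κ P).map fun t => t ^ j).sum).re

theorem ev_coe (c κ : ℝ) (P : ℝ[X]) (j : ℕ) : ((ev c κ P j : ℝ) : ℂ) = (fa c κ P).esymm j :=
  esymm_re (fa_conj c κ P) j

theorem newton_ev (c κ : ℝ) (P : ℝ[X]) (k : ℕ) : ((k : ℝ) + 1) * ev c κ P (k + 1) =
    ∑ i ∈ Finset.range (k + 1), (-1) ^ i * pv c κ P (i + 1) * ev c κ P (k - i) := by
  have h1 := newton_multiset (fa c κ P) k
  rw [← ev_coe] at h1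
  have h2 := congrArg Complex.re h1
  rw [Complex.re_sum] at h2
  have h3 : (((k : ℂ) + 1) * ((ev c κ P (k + 1) : ℝ) : ℂ)).re = ((k : ℝ) + 1) * ev c κ P (k + 1) := by
    rw [Complex.re_mul_ofReal]
    simp
  rw [h3] at h2
  rw [h2]
  refine Finset.sum_congr rfl fun i _ => ?_
  rw [← ev_coe, Complex.re_mul_ofReal]
  have h7 : ((-1 : ℂ) ^ i) = (((-1 : ℝ) ^ i : ℝ) : ℂ) := by
    push_cast
    rfl
  rw [h7, Complex.re_ofReal_mul]
  rfl

theorem esymm_one' (a : Multiset ℂ) : a.esymm 1 = a.sum := by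
  unfold Multiset.esymm
  rw [Multiset.powersetCard_one, Multiset.map_map]
  simp

theorem ev_one {b c T κ : ℝ} (h : Adm b c T κ) {L : ℕ} {P : ℝ[X]} (hP : Hyp b c T κ L P)
    (hV : ∀ r : ℝ, 0 < r → κ * L * wt r ≤ V P r) : κ / 8 * L ≤ ev c κ P 1 := by
  have h1 := lam_ge h hP hV
  unfold ev
  rw [esymm_one', fa, re_sum_map]
  exact h1

theorem ev_zero (c κ : ℝ) (P : ℝ[X]) : ev c κ P 0 = 1 := by
  unfold ev
  simp [Multiset.esymm]

theorem pv_le {b c T κ : ℝ} (h : Adm b c T κ) {L : ℕ} {P : ℝ[X]} (hP : Hyp b c T κ L P) (m : ℕ) :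
    |pv c κ P (m + 1)| ≤ (L : ℝ) / 2 * ((c0 c κ)⁻¹) ^ (m + 1) := by
  have hc0 := c0_pos h
  unfold pv
  refine (Complex.abs_re_le_norm _).trans ?_
  have h1 : ∀ s : Multiset ℂ, (∀ t ∈ s, ‖t‖ ≤ (c0 c κ)⁻¹) →
      ‖(s.map fun t => t ^ (m + 1)).sum‖ ≤ Multiset.card s * ((c0 c κ)⁻¹) ^ (m + 1) := by
    intro s
    induction s using Multiset.induction_on with
    | empty => simp
    | cons a s ih =>
      intro hs
      rw [Multiset.map_cons, Multiset.sum_cons, Multiset.card_cons]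
      have h2 := ih fun t ht => hs t (Multiset.mem_cons_of_mem ht)
      have h3 : ‖a ^ (m + 1)‖ ≤ ((c0 c κ)⁻¹) ^ (m + 1) := by
        rw [norm_pow]
        exact pow_le_pow_left₀ (norm_nonneg _) (hs a (Multiset.mem_cons_self _ _)) _
      refine (norm_add_le _ _).trans ?_
      push_cast
      linarith
  have h2 := h1 (fa c κ P) (by
    intro t ht
    unfold fa at ht
    obtain ⟨ρ, hρ, rfl⟩ := Multiset.mem_map.1 ht
    rw [norm_neg, norm_inv]
    exact inv_anti₀ hc0 (mem_fr.1 hρ).2)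
  refine h2.trans (mul_le_mul_of_nonneg_right ?_ (by positivity))
  have h3 : Multiset.card (fa c κ P) ≤ Multiset.card (Z P) := by
    unfold fa
    rw [Multiset.card_map, ← nr_add_fr c κ P, Multiset.card_add]
    omega
  have h4 := card_Z_le hP.toNice
  have h5 : (Multiset.card (fa c κ P) : ℝ) ≤ Multiset.card (Z P) := by exact_mod_cast h3
  linarith

/-- the near part -/
noncomputable def na (c κ : ℝ) (P : ℝ[X]) : Multiset ℝ := (nr c κ P).map fun ρ => ‖ρ‖⁻¹

theorem na_nonneg (c κ : ℝ) (P : ℝ[X]) : ∀ v ∈ na c κ P, 0 ≤ v := by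
  intro v hv
  unfold na at hv
  obtain ⟨ρ, -, rfl⟩ := Multiset.mem_map.1 hv
  positivity

theorem coeff_conv {b c T κ : ℝ} (h : Adm b c T κ) {L : ℕ} {P : ℝ[X]} (hP : Hyp b c T κ L P) (k : ℕ) :
    P.coeff k = P.coeff 0 * ∑ j ∈ Finset.range (k + 1), (na c κ P).esymm (k - j) * ev c κ P j := by
  have h0 : (P.map (algebraMap ℝ ℂ)).coeff 0 ≠ 0 := by
    rw [coeff_map]
    have := hP.one
    have h1 : P.coeff 0 ≠ 0 := by linarith
    exact Complex.ofReal_ne_zero.2 h1
  have h1 := Pool.Agent.Helper49.EV.coeff_eq _ h0 k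
  have h2 : (P.map (algebraMap ℝ ℂ)).roots = nr c κ P + fr c κ P := (nr_add_fr c κ P).symm
  rw [h2, Multiset.map_add, Pool.Agent.Helper49.EV.esymm_add] at h1
  have h3 : (nr c κ P).map (fun z => -z⁻¹) = (na c κ P).map (fun x : ℝ => (x : ℂ)) := by
    unfold na
    rw [Multiset.map_map]
    refine Multiset.map_congr rfl fun ρ hρ => ?_
    obtain ⟨h4, h5⟩ := mem_nr.1 hρ
    obtain ⟨him, hre⟩ := hP.neg ρ h4 (lt_of_lt_of_le h5 (c0_le h))
    obtain ⟨-, h6, -⟩ := real_root one_pos him hre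
    simp only [Function.comp_apply]
    conv_lhs => rw [h6]
    push_cast
    rw [inv_neg, neg_neg]
  rw [h3] at h1
  have h4 : ((P.coeff k : ℝ) : ℂ) = ((P.coeff 0 * ∑ j ∈ Finset.range (k + 1),
      (na c κ P).esymm (k - j) * ev c κ P j : ℝ) : ℂ) := by
    rw [coeff_map, coeff_map] at h1
    change (P.coeff k : ℂ) = (P.coeff 0 : ℂ) * _ at h1
    rw [h1]
    push_cast
    congr 1
    refine Finset.sum_congr rfl fun j _ => ?_
    rw [Pool.Agent.Helper49.EV.esymm_ofReal, ev_coe]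
    rfl
  exact_mod_cast h4

/-- truncated sequence as a polynomial -/
noncomputable def tr (e : ℕ → ℝ) (D : ℕ) : ℝ[X] := ∑ j ∈ Finset.range (D + 1), C (e j) * X ^ j

theorem tr_coeff (e : ℕ → ℝ) (D n : ℕ) : (tr e D).coeff n = if n ≤ D then e n else 0 := by
  unfold tr
  rw [finsetSum_coeff]
  simp only [coeff_C_mul, coeff_X_pow, mul_ite, mul_one, mul_zero]
  rw [Finset.sum_ite_eq]
  simp only [Finset.mem_range]
  congr 1
  exact propext (by omega)

theorem tr_PF2 {e : ℕ → ℝ} {D : ℕ} (hpos : ∀ j ≤ D, 0 < e j) (hlc : ∀ j, j + 2 ≤ D → e j * e (j + 2) ≤ e (j + 1) ^ 2) :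
    PF2 (cz (tr e D)) := by
  have key : ∀ n : ℤ, cz (tr e D) n = if 0 ≤ n ∧ n ≤ D then e n.toNat else 0 := by
    intro n
    rcases lt_or_ge n 0 with h | h
    · rw [cz_neg _ h, if_neg (by omega)]
    · obtain ⟨m, rfl⟩ := Int.eq_ofNat_of_zero_le h
      rw [cz_nat, tr_coeff, Int.toNat_natCast]
      congr 1
      exact propext (by omega)
  have hrat : ∀ (d i : ℕ), i + d + 2 ≤ D → e i * e (i + d + 2) ≤ e (i + 1) * e (i + d + 1) := by
    intro d
    induction d with
    | zero =>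
      intro i hi
      have := hlc i hi
      rw [sq] at this
      exact this
    | succ d ih =>
      intro i hi
      have h1 := ih (i + 1) (by omega)
      have h2 := hlc i (by omega)
      have p1 := hpos (i + 1) (by omega)
      have p2 := hpos (i + 2) (by omega)
      have p3 := hpos (i + (d + 1) + 2) (by omega)
      have p4 := hpos (i + (d + 1) + 1) (by omega)
      have p0 := hpos i (by omega)
      rw [show i + 1 + d + 2 = i + (d + 1) + 2 by omega, show i + 1 + 1 = i + 2 by omega,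
        show i + 1 + d + 1 = i + (d + 1) + 1 by omega] at h1
      -- e i * e(i+2) ≤ e(i+1)^2, e(i+1) * E2 ≤ e(i+2) * E1
      have h3 : e (i + 1) * e (i + 2) * (e i * e (i + (d + 1) + 2)) ≤
          e (i + 1) * e (i + 2) * (e (i + 1) * e (i + (d + 1) + 1)) := by
        have h4 := mul_le_mul h2 h1 (by positivity) (by positivity)
        nlinarith [h4]
      exact le_of_mul_le_mul_left h3 (by positivity)
  constructor
  · intro n
    rw [key]
    split_ifs with h
    · exact (hpos _ (by omega)).le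
    · exact le_rfl
  · intro m n hmn
    rw [key, key, key, key]
    by_cases h1 : 0 ≤ m - 1 ∧ m - 1 ≤ D
    · by_cases h2 : 0 ≤ n + 1 ∧ n + 1 ≤ D
      · rw [if_pos h1, if_pos h2, if_pos (by omega), if_pos (by omega)]
        obtain ⟨i, hi⟩ : ∃ i : ℕ, (i : ℤ) = m - 1 := ⟨(m - 1).toNat, by omega⟩
        obtain ⟨d, hd⟩ : ∃ d : ℕ, (d : ℤ) = n - m := ⟨(n - m).toNat, by omega⟩
        have := hrat d i (by omega)
        rw [show (m - 1).toNat = i by omega, show (n + 1).toNat = i + d + 2 by omega,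
          show m.toNat = i + 1 by omega, show n.toNat = i + d + 1 by omega]
        exact this
      · rw [if_neg h2, mul_zero]
        have a : ∀ x : ℤ, 0 ≤ (if 0 ≤ x ∧ x ≤ D then e x.toNat else 0) := by
          intro x
          split_ifs with h
          · exact (hpos _ (by omega)).le
          · exact le_rfl
        exact mul_nonneg (a m) (a n)
    · rw [if_neg h1, zero_mul]
      have a : ∀ x : ℤ, 0 ≤ (if 0 ≤ x ∧ x ≤ D then e x.toNat else 0) := by
        intro x
        split_ifs with h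
        · exact (hpos _ (by omega)).le
        · exact le_rfl
      exact mul_nonneg (a m) (a n)

/-- the share of the low coefficients -/
noncomputable def del (c κ : ℝ) : ℝ := κ ^ 2 * c0 c κ ^ 2 / 1024

theorem del_pos {b c T κ : ℝ} (h : Adm b c T κ) : 0 < del c κ := by
  have := h.hκ
  have := c0_pos h
  unfold del
  positivity

/-- **Low coefficients.** -/
theorem low4 {b c T κ : ℝ} (h : Adm b c T κ) {L : ℕ} {P : ℝ[X]} (hP : Hyp b c T κ L P)
    (hV : ∀ r : ℝ, 0 < r → κ * L * wt r ≤ V P r) (k : ℕ) (hk1 : 1 ≤ k) (hk : (k : ℝ) + 1 ≤ del c κ * L) :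
    P.coeff (k - 1) * P.coeff (k + 1) ≤ P.coeff k ^ 2 := by
  have hκ := h.hκ
  have hc0 := c0_pos h
  have hc01 : c0 c κ ≤ 1 := (c0_le h).trans h.hc1
  have hL : (0 : ℝ) < L := by
    have h1 := del_pos h
    have h2 : (0 : ℝ) ≤ k := Nat.cast_nonneg k
    by_contra h3
    push Not at h3
    nlinarith
  have hlam := ev_one h hP hV
  have hlam0 : 0 < ev c κ P 1 := lt_of_lt_of_le (by positivity) hlam
  obtain ⟨D, hD⟩ : ∃ D : ℕ, D = k + 1 := ⟨_, rfl⟩
  have hinc := incr (e := ev c κ P) (p := pv c κ P) (lam := ev c κ P 1) (A := 4 / κ) (T := (c0 c κ)⁻¹) hlam0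
    (by rw [le_div_iff₀ hκ]; linarith [h.hκ1]) ((one_le_inv₀ hc0).2 hc01) (ev_zero c κ P) rfl
    (by
      intro m
      refine (pv_le h hP m).trans (mul_le_mul_of_nonneg_right ?_ (by positivity))
      rw [div_mul_eq_mul_div, le_div_iff₀ hκ]
      nlinarith) (newton_ev c κ P) D (by
      have h1 : ((c0 c κ)⁻¹) ^ 2 = 1 / c0 c κ ^ 2 := by rw [inv_pow, one_div]
      rw [h1]
      have h2 : (D : ℝ) ≤ del c κ * L := by rw [hD]; push_cast; exact hk
      calc 32 * (4 / κ) * (1 / c0 c κ ^ 2) * (D : ℝ) ≤ 32 * (4 / κ) * (1 / c0 c κ ^ 2) * (del c κ * L) := by gcongr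
        _ = κ / 8 * L := by
          unfold del
          field_simp
          norm_num
        _ ≤ _ := hlam)
  have hpos : ∀ j ≤ D, 0 < ev c κ P j := fun j hj => (hinc j hj).1
  have hlc : ∀ j, j + 2 ≤ D → ev c κ P j * ev c κ P (j + 2) ≤ ev c κ P (j + 1) ^ 2 := by
    intro j hj
    obtain ⟨h1, h2, h3, -⟩ := hinc (j + 1) (by omega)
    have h4 : yq (ev c κ P) (j + 1) ≤ yq (ev c κ P) (j + 1 + 1) := by linarith
    change ev c κ P j / ev c κ P (j + 1) ≤ ev c κ P (j + 1) / ev c κ P (j + 2) at h4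
    rw [div_le_div_iff₀ h1 h2] at h4
    nlinarith
  have hPF := (tr_PF2 hpos hlc).mul_lp (na_nonneg c κ P)
  have hco : ∀ n ≤ D, P.coeff n = P.coeff 0 * cz (lp (na c κ P) * tr (ev c κ P) D) (n : ℕ) := by
    intro n hn
    rw [cz_nat, coeff_conv h hP n, Polynomial.coeff_mul, Finset.Nat.sum_antidiagonal_eq_sum_range_succ_mk,
      ← Finset.sum_range_reflect]
    congr 1
    refine Finset.sum_congr rfl fun j hj => ?_
    rw [Finset.mem_range] at hj
    rw [lp_coeff, tr_coeff, show n + 1 - 1 - j = n - j by omega, show n - (n - j) = j by omega]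
    rw [if_pos (by omega)]
  have h1 := hPF.2 (k : ℤ) (k : ℤ) le_rfl
  obtain ⟨a, ha⟩ : ∃ a, a = cz (lp (na c κ P) * tr (ev c κ P) D) := ⟨_, rfl⟩
  rw [← ha] at h1
  have e1 : ((k : ℕ) : ℤ) - 1 = ((k - 1 : ℕ) : ℤ) := by omega
  have e2 : ((k : ℕ) : ℤ) + 1 = ((k + 1 : ℕ) : ℤ) := by push_cast; ring
  rw [e1, e2] at h1
  rw [hco (k - 1) (by omega), hco (k + 1) (by omega), hco k (by omega), ← ha]
  have h0 := hP.one
  have h2 : 0 ≤ P.coeff 0 ^ 2 := sq_nonneg _
  nlinarith [mul_le_mul_of_nonneg_left h1 h2]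

end Pool.Agent.Helper74.EV4
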